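import Pool.Agent.H44.FB.Basics

/-! CYG: cycles of cliques. -/

set_option autoImplicit false

namespace Pool.Agent.H37.FB

open Pool.Agent.H68.BP Pool.Agent.H58.SF Pool.Agent.H53.NR
open Pool.Agent.H53.GC (arP relP strOn sigOf)
open Pool.Agent.H53.GR (Ps Dm)
open Pool.Agent.H53.GM (Connected Avoids Val Cols DmG)
open Pool.Agent.H53.GX (FmX)
open Pool.Agent.H57.AR (tp ty Ty)
open Pool.Agent.H57.EQ (Cx)
open Pool.Agent.H57.SO (fib sigF SF)
open Pool.Agent.H57.LH (SS vs c0 Blind NCB Cor Prs tfL SyL)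
open Pool.Agent.H44.KR Pool.Agent.H44.FB
open Function Classical

theorem CYG_cast {n i j : ℕ} (hi : i < n) (hj : j < n) (h : (i : ZMod n) = (j : ZMod n)) :
    i = j := by
  have h1 := (ZMod.natCast_eq_natCast_iff' i j n).1 h
  rwa [Nat.mod_eq_of_lt hi, Nat.mod_eq_of_lt hj] at h1

theorem CYG_path {V : Type} {ρ : Sig} {𝔹 : Str ρ V} (hB : HB 𝔹) (n : ℕ) (W : Type) [Finite W]
    (lv : W → ZMod n) (m : ZMod n → W → V)
    (h2 : ∀ a, TpOn 𝔹 {x | lv x = a + 1} (m a) (m (a + 1))) (a₀ : ZMod n) :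
    ∀ k : ℕ, k + 1 < n → ∃ f : W → V,
      (∀ i < k, TpOn 𝔹 {x | lv x = a₀ + (i : ZMod n) ∨ lv x = a₀ + (i : ZMod n) + 1}
        (m (a₀ + (i : ZMod n))) f) ∧
      TpOn 𝔹 {x | lv x = a₀ + (k : ZMod n)} (m (a₀ + (k : ZMod n))) f := by
  intro k
  induction k with
  | zero =>
    intro _
    refine ⟨m a₀, fun i hi => absurd hi (Nat.not_lt_zero i), ?_⟩
    rw [Nat.cast_zero, add_zero]
    exact tpo_refl _ _
  | succ k ih =>
    intro hk
    obtain ⟨f, hf1, hf2⟩ := ih (by omega)
    obtain ⟨x', h3, h4, -⟩ := hB.amg W {x | lv x = a₀ + (k : ZMod n)} (m (a₀ + (k : ZMod n))) f ∅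
      hf2
    have hpair : TpOn 𝔹 {x | lv x = a₀ + (k : ZMod n) ∨ lv x = a₀ + (k : ZMod n) + 1}
        (m (a₀ + (k : ZMod n))) (fun w => if lv w = a₀ + (k : ZMod n) + 1 then x' w else f w) := by
      refine tpo_congr (tpo_of_tp h3.symm _) (fun a _ => rfl) fun a ha => ?_
      by_cases h : lv a = a₀ + (k : ZMod n) + 1
      · exact if_pos h
      · rw [if_neg h]
        rcases ha with ha | ha
        · exact (h4 a ha).symm
        · exact absurd ha h
    refine ⟨fun w => if lv w = a₀ + (k : ZMod n) + 1 then x' w else f w, fun i hi => ?_, ?_⟩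
    · rcases Nat.lt_succ_iff_lt_or_eq.1 hi with h | h
      · refine tpo_congr (hf1 i h) (fun a _ => rfl) fun a ha => if_neg fun hcon => ?_
        rcases ha with ha | ha
        · rw [ha, add_assoc] at hcon
          have h5 : ((i : ℕ) : ZMod n) = ((k + 1 : ℕ) : ZMod n) := by
            push_cast
            exact add_left_cancel hcon
          have := CYG_cast (by omega) (by omega) h5
          omega
        · rw [ha, add_assoc, add_assoc] at hcon
          have h5 : ((i + 1 : ℕ) : ZMod n) = ((k + 1 : ℕ) : ZMod n) := by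
            push_cast
            exact add_left_cancel hcon
          have := CYG_cast (by omega) (by omega) h5
          omega
      · rw [h]
        exact hpair
    · have h5 : a₀ + ((k + 1 : ℕ) : ZMod n) = a₀ + (k : ZMod n) + 1 := by
        push_cast
        ring
      rw [h5]
      exact tpo_trans (tpo_symm (h2 _)) (tpo_mono hpair fun x hx => Or.inr hx)

theorem CYG_rz {V : Type} {ρ : Sig} {𝔹 : Str ρ V} {W : Type} {s A : Set W} {m f : W → V}
    (hi : Set.InjOn m s) (hA : A ⊆ s) (h : TpOn 𝔹 A m f) :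
    Rz 𝔹 id (fun l z => 𝔹 l (fun i => m (z i))) A f := by
  refine ⟨fun x hx y hy hxy => ?_, fun l z hz => ?_⟩
  · exact hi (hA hx) (hA hy) ((h.1 x hx y hy).2 hxy)
  · exact (h.2 l z hz).symm

theorem pf_CYG : T_CYG := by
  intro V ρ 𝔹 hB N hL W _ lv m h1 h2
  have hcast : ((N + 3 : ℕ) : ZMod (N + 3)) = 0 := ZMod.natCast_self (N + 3)
  obtain ⟨f, hf⟩ := hL W (ZMod (N + 3)) (fun a => {x | lv x = a ∨ lv x = a + 1})
    (fun a l z => 𝔹 l (fun i => m a (z i))) (by
    intro U hU
    obtain ⟨b, hb⟩ : ∃ b, ∀ x ∈ U, lv x ≠ b := by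
      by_contra hcon
      push Not at hcon
      have h3 : (Finset.univ : Finset (ZMod (N + 3))) ⊆ U.image lv := by
        intro b _
        obtain ⟨x, hx, hxb⟩ := hcon b
        exact Finset.mem_image.2 ⟨x, hx, hxb⟩
      have h4 := Finset.card_le_card h3
      rw [Finset.card_univ, ZMod.card] at h4
      have h5 : (U.image lv).card ≤ U.card := Finset.card_image_le
      omega
    obtain ⟨f, hf1, hf2⟩ := CYG_path hB (N + 3) W lv m h2 (b + 1) (N + 1) (by omega)
    refine ⟨f, fun a => ?_⟩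
    refine CYG_rz (h1 a) (fun x hx => hx.1) ?_
    have hval : (a - b - 1).val < N + 3 := ZMod.val_lt _
    have ha : a = b + 1 + (((a - b - 1).val : ℕ) : ZMod (N + 3)) := by
      rw [ZMod.natCast_zmod_val]
      ring
    generalize (a - b - 1).val = i at hval ha
    rcases lt_trichotomy i (N + 1) with hi | hi | hi
    · rw [ha]
      exact tpo_mono (hf1 i hi) fun x hx => hx.1
    · rw [ha, hi]
      refine tpo_mono hf2 fun x hx => ?_
      rcases hx with ⟨hx | hx, hxU⟩
      · exact hx
      · exfalso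
        apply hb x hxU
        rw [hx]
        have h6 : ((N + 1 : ℕ) : ZMod (N + 3)) + 2 = 0 := by
          rw [← hcast]
          push_cast
          ring
        linear_combination h6
    · have hi' : i = N + 2 := by omega
      have hab : a = b := by
        rw [ha, hi']
        have h6 : ((N + 2 : ℕ) : ZMod (N + 3)) + 1 = 0 := by
          rw [← hcast]
          push_cast
          ring
        linear_combination h6
      rw [hab]
      have h7 := hf1 0 (by omega)
      rw [Nat.cast_zero, add_zero] at h7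
      have h8 : TpOn 𝔹 {x | lv x = b + 1} (m b) f :=
        tpo_trans (h2 b) (tpo_mono h7 fun x hx => Or.inl hx)
      refine tpo_mono h8 fun x hx => ?_
      rcases hx with ⟨hx | hx, hxU⟩
      · exact absurd hx (hb x hxU)
      · exact hx)
  refine ⟨f, fun a => ⟨fun x hx y hy => ⟨fun h => ?_, fun h => ?_⟩, fun l z hz => ?_⟩⟩
  · rw [h1 a hx hy h]
  · have h3 : x = y := (hf a).1 x hx y hy h
    rw [h3]
  · exact ((hf a).2 l z hz).symm

end Pool.Agent.H37.FB
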