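import Pool.Agent.H44.FB.Basics

/-! GLO: actions of endomorphisms. -/

set_option autoImplicit false

namespace Pool.Agent.H37.FB

open Pool.Agent.H68.BP Pool.Agent.H58.SF Pool.Agent.H53.NR
open Pool.Agent.H53.GC (arP relP strOn sigOf)
open Pool.Agent.H53.GR (Ps Dm)
open Pool.Agent.H53.GM (Connected Avoids Val Cols DmG)
open Pool.Agent.H53.GX (FmX)
open Pool.Agent.H57.AR (tp ty Ty)
open Pool.Agent.H57.EQ (Cx)
open Pool.Agent.H57.SO (fib sigF SF)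
open Pool.Agent.H57.LH (SS vs c0 Blind NCB Cor Prs tfL SyL)
open Pool.Agent.H44.KR Pool.Agent.H44.FB
open Function Classical

theorem pf_GLO : T_GLO := by
  intro V σ ρ 𝔸 𝔹 hB hV ht hC γ hγ
  let S : Finset V → (V → V) → Prop := fun Y F =>
    (∀ (l : Fin σ.m) (z : Fin (σ.ar l) → V), (∀ i, z i ∈ Y) → 𝔸 l z →
      𝔸 l (fun i => F (z i))) ∧ ∀ v ∈ Y, ty 𝔹 (F v) = γ (ty 𝔹 v)
  have ha : ∀ Y, ∃ F, S Y F ∧ ∀ x ∈ (∅ : Finset V), F x = (fun v => v) x := by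
    intro Y
    obtain ⟨ψ, h1, h2⟩ := hγ {v // v ∈ Y} Subtype.val
    refine ⟨fun v => if h : v ∈ Y then ψ ⟨v, h⟩ else v, ⟨fun l z hz hx => ?_, fun v hv => ?_⟩,
      fun x hx => absurd hx (Finset.notMem_empty x)⟩
    · have h3 := h1 l (fun i => ⟨z i, hz i⟩) fun _ => hx
      have h4 : (fun i => if h : z i ∈ Y then ψ ⟨z i, h⟩ else z i) = fun i => ψ ⟨z i, hz i⟩ :=
        funext fun i => dif_pos (hz i)
      show 𝔸 l (fun i => if h : z i ∈ Y then ψ ⟨z i, h⟩ else z i)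
      rw [h4]
      exact h3
    · show ty 𝔹 (if h : v ∈ Y then ψ ⟨v, h⟩ else v) = γ (ty 𝔹 v)
      rw [dif_pos hv]
      exact h2 ⟨v, hv⟩
  have hb : ∀ Y Y' F, Y' ⊆ Y → S Y F → S Y' F := by
    rintro Y Y' F hY ⟨h1, h2⟩
    exact ⟨fun l z hz hx => h1 l z (fun i => hY (hz i)) hx, fun v hv => h2 v (hY hv)⟩
  have hc : ∀ Y F F', S Y F → TpOn 𝔹 (Y : Set V) F F' → S Y F' := by
    rintro Y F F' ⟨h1, h2⟩ hT
    refine ⟨fun l z hz hx => tyi_rel ht (tpo_comp hT z hz) l id (h1 l z hz hx), fun v hv => ?_⟩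
    rw [← h2 v hv]
    exact (tpo_ty hT hv).symm
  obtain ⟨f, -, hf⟩ := hC V ∅ (fun v => v) S ha hb hc
  refine ⟨f, fun l x hx => ?_, fun v => ?_⟩
  · refine (hf (Finset.univ.image x)).1 l x (fun i => ?_) hx
    exact Finset.mem_image_of_mem x (Finset.mem_univ i)
  · exact (hf {v}).2 v (Finset.mem_singleton_self v)

end Pool.Agent.H37.FB
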