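import Pool.Agent.H44.FB.Basics

/-! INS: inverse actions. -/

set_option autoImplicit false

namespace Pool.Agent.H37.FB

open Pool.Agent.H68.BP Pool.Agent.H58.SF Pool.Agent.H53.NR
open Pool.Agent.H53.GC (arP relP strOn sigOf)
open Pool.Agent.H53.GR (Ps Dm)
open Pool.Agent.H53.GM (Connected Avoids Val Cols DmG)
open Pool.Agent.H53.GX (FmX)
open Pool.Agent.H57.AR (tp ty Ty)
open Pool.Agent.H57.EQ (Cx)
open Pool.Agent.H57.SO (fib sigF SF)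
open Pool.Agent.H57.LH (SS vs c0 Blind NCB Cor Prs tfL SyL)
open Pool.Agent.H44.KR Pool.Agent.H44.FB
open Function Classical

variable {V : Type} {ρ σ : Sig} {𝔸 : Str σ V} {𝔹 : Str ρ V}

theorem INS_sb_id : Sb 𝔸 𝔹 id := by
  intro W _ G
  exact ⟨G, fun l z h => h (), fun w => rfl⟩

theorem INS_sb_comp {γ γ' : (Fin ρ.m → Prop) → (Fin ρ.m → Prop)} (h : Sb 𝔸 𝔹 γ)
    (h' : Sb 𝔸 𝔹 γ') : Sb 𝔸 𝔹 (fun s => γ (γ' s)) := by
  intro W _ G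
  obtain ⟨ψ', h1, h2⟩ := h' W G
  obtain ⟨ψ, h3, h4⟩ := h W ψ'
  refine ⟨ψ, fun l z hz => h3 l z fun _ => h1 l z hz, fun w => ?_⟩
  rw [h4, h2]

theorem INS_sb_iter {γ : (Fin ρ.m → Prop) → (Fin ρ.m → Prop)} (h : Sb 𝔸 𝔹 γ) (n : ℕ) :
    Sb 𝔸 𝔹 (γ^[n]) := by
  induction n with
  | zero => exact INS_sb_id
  | succ n ih =>
    rw [iterate_succ']
    exact INS_sb_comp (γ := γ) (γ' := γ^[n]) h ih

theorem INS_maps {γ : (Fin ρ.m → Prop) → (Fin ρ.m → Prop)} (h : Sb 𝔸 𝔹 γ) :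
    ∀ s ∈ Rlz 𝔹, γ s ∈ Rlz 𝔹 := by
  rintro s ⟨x, rfl⟩
  obtain ⟨ψ, -, h2⟩ := h Unit fun _ => x
  exact ⟨ψ (), h2 ()⟩

theorem pf_INS : T_INS := by
  intro V σ ρ 𝔸 𝔹 hP γ hγ
  have hm := INS_maps hγ
  let T := {s : Fin ρ.m → Prop // s ∈ Rlz 𝔹}
  let f : T → T := fun s => ⟨γ s.1, hm s.1 s.2⟩
  have hf : Injective f := by
    intro a b hab
    have h1 : γ a.1 = γ b.1 := congrArg Subtype.val hab
    exact Subtype.ext (hP γ hγ a.2 b.2 h1)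
  have hb : Bijective f := Finite.injective_iff_bijective.1 hf
  let e : Equiv.Perm T := Equiv.ofBijective f hb
  obtain ⟨k, hk, hek⟩ := isOfFinOrder_iff_pow_eq_one.1 (isOfFinOrder_of_finite e)
  have hit : ∀ (n : ℕ) (s : T), ((f^[n] s : T) : Fin ρ.m → Prop) = γ^[n] s.1 := by
    intro n
    induction n with
    | zero => intro s; rfl
    | succ n ih =>
      intro s
      rw [iterate_succ_apply', iterate_succ_apply', ← ih s]
  have hid : ∀ s ∈ Rlz 𝔹, γ^[k] s = s := by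
    intro s hs
    rw [← hit k ⟨s, hs⟩]
    have h1 : (⇑e)^[k] = ⇑(e ^ k) := Equiv.Perm.iterate_eq_pow e k
    have h2 : f^[k] ⟨s, hs⟩ = (e ^ k) ⟨s, hs⟩ := congrFun h1 _
    rw [h2, hek]
    rfl
  obtain ⟨j, rfl⟩ : ∃ j, k = j + 1 := ⟨k - 1, by omega⟩
  refine ⟨γ^[j], INS_sb_iter hγ j, fun s hs => ⟨?_, ?_⟩⟩
  · rw [← iterate_succ_apply γ j s]
    exact hid s hs
  · rw [← iterate_succ_apply' γ j s]
    exact hid s hs

end Pool.Agent.H37.FB
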