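import Pool.Agent.H44.FB.Basics

/-! KLC: collapse by steps. -/

set_option autoImplicit false

namespace Pool.Agent.H37.FB

open Pool.Agent.H68.BP Pool.Agent.H58.SF Pool.Agent.H53.NR
open Pool.Agent.H53.GC (arP relP strOn sigOf)
open Pool.Agent.H53.GR (Ps Dm)
open Pool.Agent.H53.GM (Connected Avoids Val Cols DmG)
open Pool.Agent.H53.GX (FmX)
open Pool.Agent.H57.AR (tp ty Ty)
open Pool.Agent.H57.EQ (Cx)
open Pool.Agent.H57.SO (fib sigF SF)
open Pool.Agent.H57.LH (SS vs c0 Blind NCB Cor Prs tfL SyL)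
open Pool.Agent.H44.KR Pool.Agent.H44.FB
open Function Classical

theorem pf_KLC : T_KLC := by
  intro V σ ρ 𝔸 𝔹 s hs W _ G
  obtain ⟨_⟩ := nonempty_fintype W
  let S : Finset W := Finset.univ.filter fun w => ty 𝔹 (G w) = s
  let N : (V → V) → ℕ := fun g => (S.image fun w => g (G w)).card
  have hex : ∃ n, ∃ g, En 𝔸 𝔹 g ∧ N g = n := ⟨_, _, en_id 𝔸 𝔹, rfl⟩
  obtain ⟨g, hg, hN⟩ := Nat.find_spec hex
  refine ⟨fun w => g (G w), fun l z hz => hg.1 l _ (hz ()), fun w w' hw hw' => ?_⟩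
  by_contra hne
  obtain ⟨g', hg', he⟩ := hs (g (G w)) (g (G w')) (by rw [hg.2, hw]) (by rw [hg.2, hw'])
  have h1 : N (fun v => g' (g v)) < N g := by
    have h2 : (S.image fun w => g' (g (G w))) = (S.image fun w => g (G w)).image g' := by
      rw [Finset.image_image]
      rfl
    show (S.image fun w => g' (g (G w))).card < (S.image fun w => g (G w)).card
    rw [h2]
    refine lt_of_le_of_ne Finset.card_image_le fun h3 => ?_
    have h4 := Finset.card_image_iff.1 h3
    have hm : w ∈ S := Finset.mem_filter.2 ⟨Finset.mem_univ w, hw⟩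
    have hm' : w' ∈ S := Finset.mem_filter.2 ⟨Finset.mem_univ w', hw'⟩
    exact hne (h4 (Finset.mem_image_of_mem _ hm) (Finset.mem_image_of_mem _ hm') he)
  rw [hN] at h1
  exact Nat.find_min hex h1 ⟨_, en_comp hg' hg, rfl⟩

end Pool.Agent.H37.FB
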